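import Mathlib
import Pool.Agent.W4.QD.Stms

/-!
Project QD (helper4): few values of an irreducible form are divisible by the square of a large
prime.
-/

set_option autoImplicit false

namespace Pool.Agent.W928.QD

open NumberField Finset Polynomial Pool.Agent.W4.CF Pool.Agent.W4.VC Pool.Agent.W4.QD

theorem transfer (K : Type) [Field K] [CharZero K] (a1 : Algebra ℚ K) (x : K) (F : ℚ[X]) (n : ℕ)
    (h : @aeval ℚ K _ _ a1 x F = 0 ∧ @Algebra.adjoin ℚ K _ _ a1 {x} = ⊤ ∧
      @Module.finrank ℚ K _ _ a1.toModule = n) :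
    aeval x F = 0 ∧ Algebra.adjoin ℚ {x} = ⊤ ∧ Module.finrank ℚ K = n := by
  have e : a1 = DivisionRing.toRatAlgebra := Subsingleton.elim _ _
  subst e
  exact h

theorem exists_field (F : ℚ[X]) (hirr : Irreducible F) :
    ∃ (K : Type) (_ : Field K) (_ : NumberField K) (x : K), aeval x F = 0 ∧
      Algebra.adjoin ℚ {x} = ⊤ ∧ Module.finrank ℚ K = F.natDegree := by
  have : Fact (Irreducible F) := ⟨hirr⟩
  refine ⟨AdjoinRoot F, inferInstance, inferInstance, AdjoinRoot.root F, ?_⟩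
  refine transfer (AdjoinRoot F) (AdjoinRoot.instAlgebra F) (AdjoinRoot.root F) F F.natDegree
    ⟨?_, ?_, ?_⟩
  · exact AdjoinRoot.eval₂_root F
  · exact AdjoinRoot.adjoinRoot_eq_top (f := F)
  · have h := (AdjoinRoot.powerBasis hirr.ne_zero).finrank
    rw [AdjoinRoot.powerBasis_dim] at h
    exact h

theorem exists_theta (hN : Pool.Agent.W4.QD.S_NRM) (f : ℤ[X]) (n : ℕ) (hn : 1 ≤ n)
    (hirr : Irreducible (f.map (Int.castRingHom ℚ))) (hdeg : f.natDegree = n) :
    ∃ (K : Type) (_ : Field K) (_ : NumberField K) (θ : 𝓞 K), Gen θ ∧ Module.finrank ℚ K = n ∧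
      ∀ u v : ℤ, NF θ (f.leadingCoeff * u) v = f.leadingCoeff ^ (n - 1) * hom f n u v := by
  obtain ⟨K, _, _, x, hx, hgen, hfin⟩ := exists_field _ hirr
  have hinj : Function.Injective (Int.castRingHom ℚ) := Int.cast_injective
  rw [natDegree_map_eq_of_injective hinj, hdeg] at hfin
  have hf0 : f ≠ 0 := by
    rintro rfl
    rw [natDegree_zero] at hdeg
    omega
  have ha0 : f.leadingCoeff ≠ 0 := leadingCoeff_ne_zero.2 hf0
  have hx' : aeval x f = 0 := by
    rw [aeval_map_algebraMap ℚ x f |>.symm]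
    exact hx
  have hint : IsIntegral ℤ ((f.leadingCoeff : K) * x) := by
    have := isIntegral_leadingCoeff_smul f x hx'
    rwa [zsmul_eq_mul] at this
  set θ : 𝓞 K := ⟨(f.leadingCoeff : K) * x, hint⟩ with hθ
  have hθc : (θ : K) = (f.leadingCoeff : K) * x := rfl
  have hGen : Gen θ := by
    unfold Gen
    rw [eq_top_iff, ← hgen, hθc]
    refine Algebra.adjoin_le ?_
    rw [Set.singleton_subset_iff]
    have h1 : (f.leadingCoeff : K) * x ∈ Algebra.adjoin ℚ {(f.leadingCoeff : K) * x} :=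
      Algebra.subset_adjoin rfl
    have h2 := Subalgebra.smul_mem _ h1 ((f.leadingCoeff : ℚ)⁻¹)
    have h3 : ((f.leadingCoeff : ℚ)⁻¹) • ((f.leadingCoeff : K) * x) = x := by
      rw [Algebra.smul_def, ← mul_assoc]
      have : algebraMap ℚ K ((f.leadingCoeff : ℚ)⁻¹) * (f.leadingCoeff : K) = 1 := by
        rw [map_inv₀, map_intCast]
        exact inv_mul_cancel₀ (by exact_mod_cast ha0)
      rw [this, one_mul]
    rw [h3] at h2
    exact h2
  refine ⟨K, _, _, θ, hGen, hfin, ?_⟩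
  intro u v
  have hnrm := (hN K θ hGen).2.1
  rw [hnrm, hfin]
  set g := integralNormalization f with hg
  have hgm : g.Monic := monic_integralNormalization hf0
  have hgd : g.natDegree = n := by rw [hg, natDegree_integralNormalization, hdeg]
  have hθint : IsIntegral ℤ θ := RingOfIntegers.isIntegral θ
  have hgr : aeval θ g = 0 := by
    have h1 : aeval ((f.leadingCoeff : K) * x) g = 0 := by
      have := integralNormalization_aeval_eq_zero (S := ℤ) (A := K) hx' (by
        intro y hy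
        rw [algebraMap_int_eq, eq_intCast] at hy
        exact_mod_cast hy)
      rwa [algebraMap_int_eq, eq_intCast] at this
    apply RingOfIntegers.coe_injective
    rw [map_zero, ← hθc] at *
    rw [← h1, aeval_algebraMap_apply]
  have hmp : minpoly ℤ θ = g := by
    refine (eq_of_monic_of_dvd_of_natDegree_le (minpoly.monic hθint) hgm
      (minpoly.isIntegrallyClosed_dvd hθint hgr) ?_).symm
    rw [hgd, ← hfin]
    have h1 : minpoly ℚ (θ : K) = (minpoly ℤ θ).map (algebraMap ℤ ℚ) :=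
      minpoly.isIntegrallyClosed_eq_field_fractions ℚ K hθint
    have h2 : (minpoly ℚ (θ : K)).natDegree = Module.finrank ℚ K := by
      rw [← Field.primitive_element_iff_minpoly_natDegree_eq]
      have h3 := IntermediateField.algebra_adjoin_le_adjoin ℚ {(θ : K)}
      have h4 : Algebra.adjoin ℚ {(θ : K)} = ⊤ := hGen
      rw [h4, top_le_iff] at h3
      exact IntermediateField.toSubalgebra_injective (by rw [h3]; rfl)
    rw [← h2, h1, natDegree_map_eq_of_injective (by exact hinj)]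
  rw [hmp]
  unfold hom
  rw [Finset.mul_sum]
  refine Finset.sum_congr rfl fun j _ => ?_
  have h5 := integralNormalization_coeff_mul_leadingCoeff_pow (p := f) j (by omega)
  rw [hdeg] at h5
  rw [mul_pow]
  calc g.coeff j * (f.leadingCoeff ^ j * u ^ j) * v ^ (n - j)
      = (g.coeff j * f.leadingCoeff ^ j) * u ^ j * v ^ (n - j) := by ring
    _ = (f.coeff j * f.leadingCoeff ^ (n - 1)) * u ^ j * v ^ (n - j) := by rw [h5]
    _ = _ := by ring

theorem hom_le (f : ℤ[X]) (n : ℕ) {Y : ℝ} (hY : 0 ≤ Y) (u v : ℤ) (hu : |(u : ℝ)| ≤ Y)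
    (hv : |(v : ℝ)| ≤ Y) :
    |((hom f n u v : ℤ) : ℝ)| ≤ (∑ j ∈ range (n + 1), |(f.coeff j : ℝ)|) * Y ^ n := by
  unfold hom
  push_cast
  refine (Finset.abs_sum_le_sum_abs _ _).trans ?_
  rw [Finset.sum_mul]
  refine Finset.sum_le_sum fun j hj => ?_
  have hj' : j ≤ n := by
    have := Finset.mem_range.1 hj
    omega
  rw [abs_mul, abs_mul, abs_pow, abs_pow, mul_assoc]
  refine mul_le_mul_of_nonneg_left ?_ (abs_nonneg _)
  calc |(u : ℝ)| ^ j * |(v : ℝ)| ^ (n - j) ≤ Y ^ j * Y ^ (n - j) :=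
        mul_le_mul (pow_le_pow_left₀ (abs_nonneg _) hu _) (pow_le_pow_left₀ (abs_nonneg _) hv _)
          (by positivity) (by positivity)
    _ = Y ^ n := by rw [← pow_add]; congr 1; omega

theorem sum_rpow_le (β : ℝ) (h0 : 0 < β) (h1 : β ≤ 1 / 2) (M : ℕ) :
    ∑ c ∈ Icc 1 M, (c : ℝ) ^ (-β) ≤ 2 * (M : ℝ) ^ (1 - β) := by
  induction M with
  | zero => simp [Real.zero_rpow (by linarith : (1 : ℝ) - β ≠ 0)]
  | succ M ih =>
    rw [Finset.sum_Icc_succ_top (by omega)]
    have hc : (0 : ℝ) < ((M + 1 : ℕ) : ℝ) := by positivity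
    have hM : (M : ℝ) = ((M + 1 : ℕ) : ℝ) * (1 + (-(1 / ((M + 1 : ℕ) : ℝ)))) := by
      field_simp
      push_cast
      ring
    have hinv : 1 / ((M + 1 : ℕ) : ℝ) ≤ 1 := by
      rw [div_le_one hc]
      exact_mod_cast Nat.le_add_left 1 M
    have hb : (1 + (-(1 / ((M + 1 : ℕ) : ℝ)))) ^ (1 - β) ≤
        1 + (1 - β) * (-(1 / ((M + 1 : ℕ) : ℝ))) :=
      rpow_one_add_le_one_add_mul_self (by linarith) (by linarith) (by linarith)
    have h2 : (M : ℝ) ^ (1 - β) ≤ ((M + 1 : ℕ) : ℝ) ^ (1 - β) -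
        (1 - β) * ((M + 1 : ℕ) : ℝ) ^ (-β) := by
      rw [hM, Real.mul_rpow hc.le (by linarith)]
      have e1 : ((M + 1 : ℕ) : ℝ) ^ (1 - β) = ((M + 1 : ℕ) : ℝ) * ((M + 1 : ℕ) : ℝ) ^ (-β) := by
        rw [sub_eq_add_neg, Real.rpow_add hc, Real.rpow_one]
      have h3 := mul_le_mul_of_nonneg_left hb (Real.rpow_nonneg hc.le (1 - β))
      refine h3.trans (le_of_eq ?_)
      rw [e1]
      field_simp
      ring
    have h4 : 0 ≤ ((M + 1 : ℕ) : ℝ) ^ (-β) := Real.rpow_nonneg hc.le _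
    nlinarith

theorem t_BIGG (hB : S_BG) (hN : Pool.Agent.W4.QD.S_NRM) : S_BIGG := by
  classical
  intro f n hn hirr hdeg E ε hε hE
  obtain ⟨K, _, _, θ, hGen, hfin, hNF⟩ := exists_theta hN f n (by omega) hirr hdeg
  obtain ⟨i, hi, hHBG⟩ := hB K θ hGen (by rw [hfin]; exact hn)
  have hn0 : (0 : ℝ) < n := by exact_mod_cast (by omega : 0 < n)
  have hn3 : (3 : ℝ) ≤ n := by exact_mod_cast hn
  obtain ⟨δ, hδ⟩ : ∃ δ : ℝ, δ = ε / (n + 1) := ⟨_, rfl⟩
  have hδ0 : 0 < δ := by rw [hδ]; positivity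
  obtain ⟨C3, hC3, hcount⟩ := hHBG 2 δ (by norm_num) hδ0
  rw [hfin] at hcount
  have hf0 : f ≠ 0 := by
    rintro rfl
    rw [natDegree_zero] at hdeg
    omega
  have ha0 : f.leadingCoeff ≠ 0 := leadingCoeff_ne_zero.2 hf0
  set a0 : ℤ := f.leadingCoeff with ha0def
  obtain ⟨A, hA⟩ : ∃ A : ℝ, A = |(a0 : ℝ)| := ⟨_, rfl⟩
  have hA1 : 1 ≤ A := by
    rw [hA]
    have : (1 : ℤ) ≤ |a0| := Int.one_le_abs ha0
    exact_mod_cast this
  obtain ⟨S, hS⟩ : ∃ S : ℝ, S = ∑ j ∈ range (n + 1), |(f.coeff j : ℝ)| := ⟨_, rfl⟩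
  have hS0 : 0 ≤ S := by rw [hS]; exact Finset.sum_nonneg fun j _ => abs_nonneg _
  obtain ⟨C2, hC2⟩ : ∃ C2 : ℝ, C2 = A ^ (n - 1) * S + 1 := ⟨_, rfl⟩
  have hC21 : 1 ≤ C2 := by
    rw [hC2]
    have : 0 ≤ A ^ (n - 1) * S := by positivity
    linarith
  obtain ⟨D, hD⟩ : ∃ D : ℝ, D = C3 * (A * C2) ^ δ := ⟨_, rfl⟩
  have hA0 : 0 < A := by linarith
  have hC20 : 0 < C2 := by linarith
  have hD0 : 0 < D := by rw [hD]; positivity
  have hi0 : (1 : ℝ) ≤ i := by exact_mod_cast hi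
  obtain ⟨C, hC⟩ : ∃ C : ℝ, C = 1 + A + i + C2 + 2 * D * C2 := ⟨_, rfl⟩
  have hDC : 0 < 2 * D * C2 := by positivity
  have hC1 : 1 ≤ C := by rw [hC]; linarith
  have hC0 : 0 < C := by linarith
  -- exponents
  have h3n : (0 : ℝ) < 3 * n - 1 := by linarith
  have hE1 : (n : ℝ) ^ 2 ≤ E * (3 * n - 1) := by rwa [div_le_iff₀ h3n] at hE
  have hE0 : 0 < E := by
    by_contra hcon
    push Not at hcon
    nlinarith
  have hE3 : (n : ℝ) ≤ 3 * E := by
    by_contra hcon
    push Not at hcon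
    nlinarith
  obtain ⟨β, hβ⟩ : ∃ β : ℝ, β = 1 / (2 * n) := ⟨_, rfl⟩
  have hβ0 : 0 < β := by rw [hβ]; positivity
  have hβ1 : β ≤ 1 / 2 := by
    rw [hβ]
    apply one_div_le_one_div_of_le <;> linarith
  refine ⟨C, hC0, ?_⟩
  intro Y hY s hs
  have hY0 : 0 < Y := by linarith
  obtain ⟨T, hT⟩ : ∃ T : ℝ, T = C2 * Y ^ n := ⟨_, rfl⟩
  have hT1 : 1 ≤ T := by
    rw [hT]
    exact one_le_mul_of_one_le_of_one_le hC21 (one_le_pow₀ hY)
  have hT0 : 0 < T := by linarith
  have hYE : 1 ≤ Y ^ E := Real.one_le_rpow hY hE0.le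
  have hYE0 : 0 < Y ^ E := by linarith
  obtain ⟨M, hM⟩ : ∃ M : ℕ, M = ⌊T / (Y ^ E) ^ 2⌋₊ := ⟨_, rfl⟩
  have hMT : (M : ℝ) ≤ T / (Y ^ E) ^ 2 := by rw [hM]; exact Nat.floor_le (by positivity)
  set t : ℕ → Finset (ℤ × ℤ) := fun e => s.filter (fun p => ∃ z : ℕ, 1 ≤ z ∧
    (z : ℝ) ≤ √(T / e) ∧ Nat.Coprime z (i * e) ∧
    (∀ l : ℕ, l.Prime → l ∣ z → ¬ ((l : ℤ) ∣ a0 * p.1 ∧ (l : ℤ) ∣ p.2)) ∧
    (NF θ (a0 * p.1) p.2).natAbs = e * z ^ 2) with ht
  have hsub : s ⊆ (Finset.Icc 1 M).biUnion t := by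
    intro p hp
    obtain ⟨⟨hcop, hu, hv, _⟩, hne, l, hl, hlC, hld⟩ := hs p hp
    have hNFp := hNF p.1 p.2
    have hNne : NF θ (a0 * p.1) p.2 ≠ 0 := by
      rw [hNFp]
      exact mul_ne_zero (pow_ne_zero _ ha0) hne
    have hNle : ((NF θ (a0 * p.1) p.2).natAbs : ℝ) ≤ T := by
      rw [Nat.cast_natAbs, Int.cast_abs, hNFp]
      push_cast
      rw [abs_mul, abs_pow, ← hA]
      have h1 := hom_le f n hY0.le p.1 p.2 hu hv
      rw [← hS] at h1
      calc A ^ (n - 1) * |((hom f n p.1 p.2 : ℤ) : ℝ)| ≤ A ^ (n - 1) * (S * Y ^ n) :=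
            mul_le_mul_of_nonneg_left h1 (by positivity)
        _ = (A ^ (n - 1) * S) * Y ^ n := by ring
        _ ≤ C2 * Y ^ n := mul_le_mul_of_nonneg_right (by rw [hC2]; linarith) (by positivity)
        _ = T := hT.symm
    have hdN : l ^ 2 ∣ (NF θ (a0 * p.1) p.2).natAbs := by
      have h1 : (l : ℤ) ^ 2 ∣ NF θ (a0 * p.1) p.2 := by
        rw [hNFp]
        exact Dvd.dvd.mul_left hld _
      have := Int.natAbs_dvd_natAbs.2 h1
      rwa [Int.natAbs_pow, Int.natAbs_natCast] at this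
    obtain ⟨e, he⟩ := hdN
    have hN0 : (NF θ (a0 * p.1) p.2).natAbs ≠ 0 := Int.natAbs_ne_zero.2 hNne
    have he0 : 1 ≤ e := by
      rcases Nat.eq_zero_or_pos e with h | h
      · rw [h, mul_zero] at he
        exact absurd he hN0
      · exact h
    have he1 : (1 : ℝ) ≤ e := by exact_mod_cast he0
    have hl0 : (0 : ℝ) < l := by exact_mod_cast hl.pos
    have hel : (e : ℝ) * (l : ℝ) ^ 2 ≤ T := by
      rw [he] at hNle
      push_cast at hNle
      linarith
    have hlY : Y ^ E ≤ l := by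
      have : Y ^ E ≤ C * Y ^ E := le_mul_of_one_le_left hYE0.le hC1
      linarith
    have hlC' : C < l := by
      have : C ≤ C * Y ^ E := le_mul_of_one_le_right hC0.le hYE
      linarith
    have hli : i < l := by
      have : (i : ℝ) < l := by rw [hC] at hlC'; linarith
      exact_mod_cast this
    have hla : ¬ (l : ℤ) ∣ a0 := by
      intro h
      have h1 := Int.le_of_dvd (abs_pos.2 ha0) ((dvd_abs _ _).2 h)
      have h2 : (l : ℝ) ≤ A := by
        rw [hA]
        exact_mod_cast h1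
      rw [hC] at hlC'
      linarith
    have hle : ¬ l ∣ e := by
      intro h
      have h5 : l ≤ e := Nat.le_of_dvd (by omega) h
      have h6 : (l : ℝ) ≤ e := by exact_mod_cast h5
      have h7 : (l : ℝ) ^ 3 ≤ C2 * Y ^ n := by
        calc (l : ℝ) ^ 3 = l * (l : ℝ) ^ 2 := by ring
          _ ≤ e * (l : ℝ) ^ 2 := mul_le_mul_of_nonneg_right h6 (by positivity)
          _ ≤ _ := by rw [← hT]; exact hel
      have h8 : (C * Y ^ E) ^ 3 < (l : ℝ) ^ 3 := pow_lt_pow_left₀ hlC (by positivity) (by norm_num)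
      have h9 : C2 * Y ^ n ≤ (C * Y ^ E) ^ 3 := by
        rw [mul_pow]
        have g1 : C2 ≤ C ^ 3 := by
          have g2 : C2 ≤ C := by rw [hC]; linarith
          exact g2.trans (le_self_pow₀ hC1 (by norm_num))
        have g3 : Y ^ n ≤ (Y ^ E) ^ 3 := by
          rw [← Real.rpow_natCast Y n, ← Real.rpow_natCast (Y ^ E) 3, ← Real.rpow_mul hY0.le]
          apply Real.rpow_le_rpow_of_exponent_le hY
          push_cast
          linarith
        exact mul_le_mul g1 g3 (by positivity) (by positivity)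
      linarith
    rw [Finset.mem_biUnion]
    refine ⟨e, ?_, ?_⟩
    · rw [Finset.mem_Icc]
      refine ⟨he0, ?_⟩
      rw [hM]
      apply Nat.le_floor
      rw [le_div_iff₀ (by positivity)]
      refine le_trans ?_ hel
      exact mul_le_mul_of_nonneg_left (pow_le_pow_left₀ hYE0.le hlY 2) (by positivity)
    · rw [ht]
      refine Finset.mem_filter.2 ⟨hp, l, hl.pos, ?_, ?_, ?_, by rw [he]; ring⟩
      · apply Real.le_sqrt_of_sq_le
        rw [le_div_iff₀ (by linarith)]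
        linarith
      · rw [Nat.Prime.coprime_iff_not_dvd hl, hl.dvd_mul]
        rintro (h | h)
        · exact absurd (Nat.le_of_dvd (by omega) h) (by omega)
        · exact hle h
      · intro l' hl' hdvd
        have : l' = l := (Nat.prime_dvd_prime_iff_eq hl' hl).1 hdvd
        subst this
        rintro ⟨g1, g2⟩
        have hlp : Prime (l' : ℤ) := Nat.prime_iff_prime_int.1 hl'
        rcases hlp.dvd_or_dvd g1 with g3 | g3
        · exact hla g3
        · exact hlp.not_isUnit (hcop.isUnit_of_dvd' g3 g2)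
  have htc : ∀ e ∈ Finset.Icc 1 M, ((t e).card : ℝ) ≤ D * Y ^ ε * T ^ β * (e : ℝ) ^ (-β) := by
    intro e he
    have he := Finset.mem_Icc.1 he
    have he1 : (1 : ℝ) ≤ e := by exact_mod_cast he.1
    have heM : (e : ℝ) ≤ T / (Y ^ E) ^ 2 := le_trans (by exact_mod_cast he.2) hMT
    have heT : (e : ℝ) ≤ T := by
      refine heM.trans (div_le_self hT0.le ?_)
      exact one_le_pow₀ hYE
    have hinj : Set.InjOn (fun p : ℤ × ℤ => (a0 * p.1, p.2)) (t e) := by
      intro p _ q _ hpq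
      simp only [Prod.mk.injEq] at hpq
      exact Prod.ext (mul_left_cancel₀ ha0 hpq.1) hpq.2
    have hAY : 1 ≤ A * Y := one_le_mul_of_one_le_of_one_le hA1 hY
    have hsq : 1 ≤ √(T / e) := by
      rw [Real.one_le_sqrt, le_div_iff₀ (by linarith)]
      linarith
    have h1 := hcount (A * Y) (√(T / e)) hAY hsq e he.1
      ((t e).image (fun p : ℤ × ℤ => (a0 * p.1, p.2))) (by
        intro q hq
        obtain ⟨p, hp, rfl⟩ := Finset.mem_image.1 hq
        obtain ⟨hps, z, hz1, hz2, hz3, hz4, hz5⟩ := Finset.mem_filter.1 hp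
        obtain ⟨⟨_, hu, hv, _⟩, _⟩ := hs p hps
        refine ⟨?_, ?_, z, hz1, hz2, hz3, hz4, hz5⟩
        · push_cast
          rw [abs_mul, ← hA]
          exact mul_le_mul_of_nonneg_left hu hA0.le
        · exact hv.trans (le_mul_of_one_le_left hY0.le hA1))
    rw [Finset.card_image_of_injOn hinj] at h1
    refine h1.trans ?_
    have h2 : (√(T / e)) ^ ((1 : ℝ) / n) = T ^ β * (e : ℝ) ^ (-β) := by
      rw [Real.sqrt_eq_rpow, ← Real.rpow_mul (by positivity), Real.rpow_neg (by positivity),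
        ← div_eq_mul_inv, ← Real.div_rpow hT0.le (by linarith)]
      congr 1
      rw [hβ]
      field_simp
    have h3 : (A * Y * e) ^ δ ≤ (A * C2) ^ δ * Y ^ ε := by
      calc (A * Y * e) ^ δ ≤ ((A * C2) * Y ^ (n + 1)) ^ δ := by
            apply Real.rpow_le_rpow (by positivity) _ hδ0.le
            calc A * Y * e ≤ A * Y * T := mul_le_mul_of_nonneg_left heT (by positivity)
              _ = _ := by rw [hT]; ring
        _ = (A * C2) ^ δ * Y ^ ε := by
            rw [Real.mul_rpow (by positivity) (by positivity), ← Real.rpow_natCast Y (n + 1),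
              ← Real.rpow_mul hY0.le]
            congr 2
            rw [hδ]
            push_cast
            field_simp
    rw [h2]
    calc C3 * (A * Y * e) ^ δ * (T ^ β * (e : ℝ) ^ (-β))
        ≤ C3 * ((A * C2) ^ δ * Y ^ ε) * (T ^ β * (e : ℝ) ^ (-β)) := by
          apply mul_le_mul_of_nonneg_right _ (by positivity)
          exact mul_le_mul_of_nonneg_left h3 hC3.le
      _ = _ := by rw [hD]; ring
  have hcard : (s.card : ℝ) ≤ ∑ e ∈ Finset.Icc 1 M, ((t e).card : ℝ) := by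
    have := (Finset.card_le_card hsub).trans Finset.card_biUnion_le
    exact_mod_cast this
  have hsum : ∑ e ∈ Finset.Icc 1 M, ((t e).card : ℝ) ≤ D * Y ^ ε * T ^ β * (2 * (M : ℝ) ^ (1 - β)) := by
    refine (Finset.sum_le_sum htc).trans ?_
    rw [← Finset.mul_sum]
    exact mul_le_mul_of_nonneg_left (sum_rpow_le β hβ0 hβ1 M) (by positivity)
  have hM2 : T ^ β * (M : ℝ) ^ (1 - β) ≤ C2 * Y ^ E := by
    have h1 : (M : ℝ) ^ (1 - β) ≤ (T / (Y ^ E) ^ 2) ^ (1 - β) :=
      Real.rpow_le_rpow (by positivity) hMT (by linarith)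
    have h2 : T ^ β * (T / (Y ^ E) ^ 2) ^ (1 - β) = T * Y ^ (-(2 * E * (1 - β))) := by
      rw [Real.div_rpow hT0.le (by positivity), ← Real.rpow_natCast (Y ^ E) 2,
        ← Real.rpow_mul hY0.le, ← Real.rpow_mul hY0.le, Real.rpow_neg hY0.le, ← mul_div_assoc,
        ← Real.rpow_add hT0]
      rw [show β + (1 - β) = 1 by ring, Real.rpow_one, div_eq_mul_inv]
      congr 3
      push_cast
      ring
    calc T ^ β * (M : ℝ) ^ (1 - β) ≤ T ^ β * (T / (Y ^ E) ^ 2) ^ (1 - β) :=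
          mul_le_mul_of_nonneg_left h1 (by positivity)
      _ = T * Y ^ (-(2 * E * (1 - β))) := h2
      _ = C2 * (Y ^ (n : ℝ) * Y ^ (-(2 * E * (1 - β)))) := by
          rw [hT, Real.rpow_natCast]; ring
      _ = C2 * Y ^ ((n : ℝ) + -(2 * E * (1 - β))) := by rw [← Real.rpow_add hY0]
      _ ≤ C2 * Y ^ E := by
          apply mul_le_mul_of_nonneg_left _ hC20.le
          apply Real.rpow_le_rpow_of_exponent_le hY
          have e1 : 2 * E * (1 - β) = 2 * E - E / n := by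
            rw [hβ]
            field_simp
          rw [e1]
          have e2 : (n : ℝ) ≤ 3 * E - E / n := by
            have e3 : 3 * E - E / n = E * (3 * n - 1) / n := by field_simp
            rw [e3, le_div_iff₀ hn0]
            nlinarith
          linarith
  calc (s.card : ℝ) ≤ D * Y ^ ε * T ^ β * (2 * (M : ℝ) ^ (1 - β)) := hcard.trans hsum
    _ = 2 * D * Y ^ ε * (T ^ β * (M : ℝ) ^ (1 - β)) := by ring
    _ ≤ 2 * D * Y ^ ε * (C2 * Y ^ E) := mul_le_mul_of_nonneg_left hM2 (by positivity)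
    _ = 2 * D * C2 * Y ^ (E + ε) := by rw [Real.rpow_add hY0]; ring
    _ ≤ C * Y ^ (E + ε) := by
        apply mul_le_mul_of_nonneg_right _ (by positivity)
        rw [hC]
        linarith

end Pool.Agent.W928.QD
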